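import Mathlib

set_option autoImplicit false

open Finset

namespace Pool.Agent.Results.MP_daf6f7_co.Unbounded

/-- increasing triples -/
abbrev T (N : ℕ) : Type := {t : Fin N × Fin N × Fin N // t.1 < t.2.1 ∧ t.2.1 < t.2.2}

/-- `s = (i, j, l)` is followed by `t = (j, l, p)` -/
def Step {N : ℕ} (s t : T N) : Prop := s.1.2.1 = t.1.1 ∧ s.1.2.2 = t.1.2.1

instance {N : ℕ} : DecidableRel (@Step N) := fun s t => by unfold Step; infer_instance

theorem step_irrefl {N : ℕ} (s : T N) : ¬ Step s s := by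
  rintro ⟨h, -⟩
  exact absurd h (ne_of_gt s.2.1)

theorem count (N : ℕ) (i j l : Fin N) (hij : i ≠ j) (hjl : j ≠ l) (hil : i ≠ l) :
    3 * (univ.filter (fun σ : Equiv.Perm (Fin N) => σ i < σ j ∧ σ l < σ j)).card
      = (univ : Finset (Equiv.Perm (Fin N))).card := by
  set Aj := univ.filter (fun σ : Equiv.Perm (Fin N) => σ i < σ j ∧ σ l < σ j) with hAj
  set Ai := univ.filter (fun σ : Equiv.Perm (Fin N) => σ j < σ i ∧ σ l < σ i) with hAi
  set Al := univ.filter (fun σ : Equiv.Perm (Fin N) => σ i < σ l ∧ σ j < σ l) with hAl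
  have e1 : Ai.card = Aj.card := by
    refine Finset.card_bij (fun σ _ => σ * Equiv.swap i j) ?_ ?_ ?_
    · intro σ hσ
      simp only [hAi, hAj, mem_filter, mem_univ, true_and, Equiv.Perm.mul_apply] at hσ ⊢
      rw [Equiv.swap_apply_left, Equiv.swap_apply_right,
        Equiv.swap_apply_of_ne_of_ne hil.symm hjl.symm]
      exact hσ
    · intro σ _ τ _ h
      exact mul_right_cancel h
    · intro σ hσ
      refine ⟨σ * Equiv.swap i j, ?_, ?_⟩
      · simp only [hAi, hAj, mem_filter, mem_univ, true_and, Equiv.Perm.mul_apply] at hσ ⊢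
        rw [Equiv.swap_apply_left, Equiv.swap_apply_right,
          Equiv.swap_apply_of_ne_of_ne hil.symm hjl.symm]
        exact hσ
      · rw [mul_assoc, Equiv.swap_mul_self, mul_one]
  have e2 : Al.card = Aj.card := by
    refine Finset.card_bij (fun σ _ => σ * Equiv.swap l j) ?_ ?_ ?_
    · intro σ hσ
      simp only [hAl, hAj, mem_filter, mem_univ, true_and, Equiv.Perm.mul_apply] at hσ ⊢
      rw [Equiv.swap_apply_left, Equiv.swap_apply_right,
        Equiv.swap_apply_of_ne_of_ne hil hij]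
      exact hσ
    · intro σ _ τ _ h
      exact mul_right_cancel h
    · intro σ hσ
      refine ⟨σ * Equiv.swap l j, ?_, ?_⟩
      · simp only [hAl, hAj, mem_filter, mem_univ, true_and, Equiv.Perm.mul_apply] at hσ ⊢
        rw [Equiv.swap_apply_left, Equiv.swap_apply_right,
          Equiv.swap_apply_of_ne_of_ne hil hij]
        exact hσ
      · rw [mul_assoc, Equiv.swap_mul_self, mul_one]
  have d1 : Disjoint Ai Aj := by
    rw [Finset.disjoint_left]
    intro σ h1 h2
    simp only [hAi, hAj, mem_filter, mem_univ, true_and] at h1 h2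
    exact absurd h1.1 (not_lt_of_gt h2.1)
  have d2 : Disjoint (Ai ∪ Aj) Al := by
    rw [Finset.disjoint_left]
    intro σ h1 h2
    simp only [hAi, hAj, hAl, mem_union, mem_filter, mem_univ, true_and] at h1 h2
    rcases h1 with h1 | h1
    · exact absurd h1.2 (not_lt_of_gt h2.1)
    · exact absurd h1.2 (not_lt_of_gt h2.2)
  have hU : (univ : Finset (Equiv.Perm (Fin N))) = Ai ∪ Aj ∪ Al := by
    ext σ
    simp only [hAi, hAj, hAl, mem_union, mem_filter, mem_univ, true_and, true_iff]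
    have n1 : σ i ≠ σ j := fun h => hij (σ.injective h)
    have n2 : σ j ≠ σ l := fun h => hjl (σ.injective h)
    have n3 : σ i ≠ σ l := fun h => hil (σ.injective h)
    rcases lt_or_gt_of_ne n1 with h1 | h1
    · rcases lt_or_gt_of_ne n2 with h2 | h2
      · right; exact ⟨h1.trans h2, h2⟩
      · left; right; exact ⟨h1, h2⟩
    · rcases lt_or_gt_of_ne n3 with h2 | h2
      · right; exact ⟨h2, h1.trans h2⟩
      · left; left; exact ⟨h1, h2⟩
  rw [hU, card_union_of_disjoint d2, card_union_of_disjoint d1, e1, e2]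
  ring

/-- a third of any set of triples is independent for `Step` -/
theorem third {N : ℕ} (S : Finset (T N)) : ∃ M ⊆ S,
    (∀ s ∈ M, ∀ t ∈ M, ¬ Step s t) ∧ S.card ≤ 3 * M.card := by
  let g : Equiv.Perm (Fin N) → Finset (T N) := fun σ =>
    S.filter (fun t => σ t.1.1 < σ t.1.2.1 ∧ σ t.1.2.2 < σ t.1.2.1)
  have hsum : ∑ σ : Equiv.Perm (Fin N), 3 * (g σ).card
      = ∑ _σ : Equiv.Perm (Fin N), S.card := by
    have h1 : ∑ σ : Equiv.Perm (Fin N), (g σ).card = ∑ t ∈ S,
        (univ.filter (fun σ : Equiv.Perm (Fin N) =>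
          σ t.1.1 < σ t.1.2.1 ∧ σ t.1.2.2 < σ t.1.2.1)).card := by
      simp only [g, card_filter]
      rw [sum_comm]
    rw [← mul_sum, h1, mul_sum]
    rw [sum_congr rfl (fun t _ => count N t.1.1 t.1.2.1 t.1.2.2 (ne_of_lt t.2.1)
      (ne_of_lt t.2.2) (ne_of_lt (t.2.1.trans t.2.2)))]
    rw [sum_const, sum_const, smul_eq_mul, smul_eq_mul, mul_comm]
  obtain ⟨σ, -, hσ⟩ := exists_le_of_sum_le (s := univ) univ_nonempty hsum.ge
  refine ⟨g σ, filter_subset _ _, ?_, hσ⟩
  rintro s hs t ht ⟨h1, h2⟩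
  simp only [g, mem_filter] at hs ht
  rw [h1, h2] at hs
  exact absurd hs.2.2 (not_lt_of_gt ht.2.1)

/-- the triples are not `k`-colourable when `N` is large -/
theorem no_colouring (k N : ℕ) (hN : 2 ^ 2 ^ k < N) (c : T N → Fin k)
    (hc : ∀ s t, Step s t → c s ≠ c t) : False := by
  classical
  let C2 : Fin N → Fin N → Finset (Fin k) := fun j l =>
    univ.filter (fun a => ∃ t : T N, t.1.2.1 = j ∧ t.1.2.2 = l ∧ c t = a)
  have h2 : ∀ i j l : Fin N, i < j → j < l → C2 i j ≠ C2 j l := by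
    intro i j l hij hjl h
    have hm : c ⟨(i, j, l), hij, hjl⟩ ∈ C2 j l := by
      simp only [C2, mem_filter, mem_univ, true_and]
      exact ⟨⟨(i, j, l), hij, hjl⟩, rfl, rfl, rfl⟩
    rw [← h] at hm
    simp only [C2, mem_filter, mem_univ, true_and] at hm
    obtain ⟨t, ht1, ht2, ht3⟩ := hm
    exact hc t ⟨(i, j, l), hij, hjl⟩ ⟨ht1, ht2⟩ ht3
  let C1 : Fin N → Finset (Finset (Fin k)) := fun j =>
    (univ.filter (fun i => i < j)).image (fun i => C2 i j)
  have h1 : ∀ i j : Fin N, i < j → C1 i ≠ C1 j := by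
    intro i j hij h
    have hm : C2 i j ∈ C1 j := by
      simp only [C1, mem_image, mem_filter, mem_univ, true_and]
      exact ⟨i, hij, rfl⟩
    rw [← h] at hm
    simp only [C1, mem_image, mem_filter, mem_univ, true_and] at hm
    obtain ⟨a, ha, hab⟩ := hm
    exact h2 a i j ha hij hab
  have hinj : Function.Injective C1 := by
    intro i j h
    rcases lt_trichotomy i j with hij | hij | hij
    · exact absurd h (h1 i j hij)
    · exact hij
    · exact absurd h.symm (h1 j i hij)
  have hcard := Fintype.card_le_of_injective C1 hinj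
  simp only [Fintype.card_fin, Fintype.card_finset] at hcard
  omega

/-- index type of the hyperedges -/
abbrev I (N D : ℕ) : Type := T N ⊕ Fin D

/-- points: one private point for each hyperedge, one point for each ordered pair of triples,
and one further point -/
abbrev V (N D : ℕ) : Type := I N D ⊕ (T N × T N) ⊕ Unit

/-- membership of points in hyperedges -/
def Inc {N D : ℕ} : V N D → I N D → Prop
  | Sum.inl x, y => x = y
  | Sum.inr (Sum.inl (s, t)), y => Step s t ∧ (y = Sum.inl s ∨ y = Sum.inl t)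
  | Sum.inr (Sum.inr _), y => ∃ d, y = Sum.inr d

open Classical in
/-- the hyperedges -/
noncomputable def E {N D : ℕ} (y : I N D) : Finset (V N D) := univ.filter (fun v => Inc v y)

theorem mem_E {N D : ℕ} (y : I N D) (v : V N D) : v ∈ E y ↔ Inc v y := by
  simp [E]

theorem meet {N D : ℕ} {x y : I N D} (hxy : x ≠ y) {v : V N D} (hx : v ∈ E x) (hy : v ∈ E y) :
    (∃ s t, Step s t ∧ ((x = Sum.inl s ∧ y = Sum.inl t) ∨ (x = Sum.inl t ∧ y = Sum.inl s)) ∧
      v = Sum.inr (Sum.inl (s, t))) ∨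
    ((∃ d d', x = Sum.inr d ∧ y = Sum.inr d') ∧ v = Sum.inr (Sum.inr ())) := by
  rw [mem_E] at hx hy
  rcases v with z | ⟨s, t⟩ | u
  · exact absurd (hx.symm.trans hy) hxy
  · left
    obtain ⟨hst, hx⟩ := hx
    obtain ⟨-, hy⟩ := hy
    rcases hx with hx | hx <;> rcases hy with hy | hy
    · exact absurd (hx.trans hy.symm) hxy
    · exact ⟨s, t, hst, Or.inl ⟨hx, hy⟩, rfl⟩
    · exact ⟨s, t, hst, Or.inr ⟨hx, hy⟩, rfl⟩
    · exact absurd (hx.trans hy.symm) hxy
  · right
    obtain ⟨d, hx⟩ := hx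
    obtain ⟨d', hy⟩ := hy
    exact ⟨⟨d, d', hx, hy⟩, rfl⟩

theorem step_asymm {N : ℕ} {s t : T N} (h : Step s t) : ¬ Step t s := by
  rintro ⟨h1, -⟩
  have := h.1
  have a := s.2.1
  have b := t.2.1
  rw [h1, ← this] at b
  exact absurd a (not_lt_of_gt b)

theorem linear {N D : ℕ} {x y : I N D} (hxy : x ≠ y) : (E x ∩ E y).card ≤ 1 := by
  rw [card_le_one]
  intro v hv w hw
  rw [mem_inter] at hv hw
  rcases meet hxy hv.1 hv.2 with ⟨s, t, hst, h, rfl⟩ | ⟨⟨d, d', hd, hd'⟩, rfl⟩
  · rcases meet hxy hw.1 hw.2 with ⟨s', t', hst', h', rfl⟩ | ⟨⟨d, d', hd, hd'⟩, rfl⟩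
    · rcases h with ⟨h1, h2⟩ | ⟨h1, h2⟩ <;> rcases h' with ⟨h3, h4⟩ | ⟨h3, h4⟩
      · rw [h1] at h3; rw [h2] at h4
        rw [Sum.inl.inj h3, Sum.inl.inj h4]
      · rw [h1] at h3; rw [h2] at h4
        rw [← Sum.inl.inj h3, ← Sum.inl.inj h4] at hst'
        exact absurd hst' (step_asymm hst)
      · rw [h1] at h3; rw [h2] at h4
        rw [← Sum.inl.inj h3, ← Sum.inl.inj h4] at hst'
        exact absurd hst' (step_asymm hst)
      · rw [h1] at h3; rw [h2] at h4
        rw [Sum.inl.inj h3, Sum.inl.inj h4]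
    · rcases h with ⟨h1, h2⟩ | ⟨h1, h2⟩ <;> rw [h1] at hd <;> exact absurd hd (by simp)
  · rcases meet hxy hw.1 hw.2 with ⟨s', t', hst', h', rfl⟩ | ⟨-, rfl⟩
    · rcases h' with ⟨h1, h2⟩ | ⟨h1, h2⟩ <;> rw [h1] at hd <;> exact absurd hd (by simp)
    · rfl

theorem disj_triples {N D : ℕ} {s t : T N} (hst : s ≠ t) (h1 : ¬ Step s t) (h2 : ¬ Step t s) :
    Disjoint (E (Sum.inl s : I N D)) (E (Sum.inl t)) := by
  rw [Finset.disjoint_left]
  intro v hv hw
  have hne : (Sum.inl s : I N D) ≠ Sum.inl t := fun h => hst (Sum.inl.inj h)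
  rcases meet hne hv hw with ⟨a, b, hab, h, -⟩ | ⟨⟨d, d', hd, -⟩, -⟩
  · rcases h with ⟨h3, h4⟩ | ⟨h3, h4⟩
    · rw [← Sum.inl.inj h3, ← Sum.inl.inj h4] at hab; exact h1 hab
    · rw [← Sum.inl.inj h3, ← Sum.inl.inj h4] at hab; exact h2 hab
  · exact absurd hd (by simp)

theorem disj_mixed {N D : ℕ} (s : T N) (d : Fin D) :
    Disjoint (E (Sum.inl s : I N D)) (E (Sum.inr d)) := by
  rw [Finset.disjoint_left]
  intro v hv hw
  rcases meet (by simp) hv hw with ⟨a, b, hab, h, -⟩ | ⟨⟨d, d', hd, -⟩, -⟩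
  · rcases h with ⟨h3, h4⟩ | ⟨h3, h4⟩
    · exact absurd h4 (by simp)
    · exact absurd h4 (by simp)
  · exact absurd hd (by simp)

open Classical in
/-- degree of a point in a subfamily -/
noncomputable def degIn {N D : ℕ} (S : Finset (I N D)) (v : V N D) : ℕ :=
  (S.filter (fun y => Inc v y)).card

/-- maximum degree of a subfamily -/
noncomputable def mdeg {N D : ℕ} (S : Finset (I N D)) : ℕ :=
  univ.sup (fun v : V N D => degIn S v)

theorem le_mdeg {N D : ℕ} (S A : Finset (I N D)) (v : V N D) (hA : A ⊆ S)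
    (h : ∀ y ∈ A, v ∈ E y) : A.card ≤ mdeg S := by
  classical
  refine le_trans (card_le_card ?_) (le_sup (f := fun v : V N D => degIn S v) (mem_univ v))
  intro y hy
  exact mem_filter.2 ⟨hA hy, (mem_E y v).1 (h y hy)⟩

theorem hereditary {N D : ℕ} (S : Finset (I N D)) : ∃ M ⊆ S,
    (∀ x ∈ M, ∀ y ∈ M, x ≠ y → Disjoint (E x) (E y)) ∧ S.card ≤ M.card * (mdeg S + 1) := by
  classical
  let S1 : Finset (T N) := univ.filter (fun t => Sum.inl t ∈ S)
  let S2 : Finset (Fin D) := univ.filter (fun d => Sum.inr d ∈ S)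
  have hS1 : ∀ t, t ∈ S1 ↔ Sum.inl t ∈ S := fun t => by simp [S1]
  have hS2 : ∀ d, d ∈ S2 ↔ Sum.inr d ∈ S := fun t => by simp [S2]
  have hScard : S.card = S1.card + S2.card := by
    have : S = S1.disjSum S2 := by
      ext x
      rcases x with x | x
      · rw [inl_mem_disjSum, hS1]
      · rw [inr_mem_disjSum, hS2]
    conv_lhs => rw [this]
    rw [card_disjSum]
  -- the triples
  obtain ⟨M1, hM1, hind, hc1⟩ : ∃ M1 ⊆ S1, (∀ s ∈ M1, ∀ t ∈ M1, ¬ Step s t) ∧
      S1.card ≤ M1.card * (mdeg S + 1) := by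
    by_cases hi : ∀ s ∈ S1, ∀ t ∈ S1, ¬ Step s t
    · exact ⟨S1, subset_rfl, hi, Nat.le_mul_of_pos_right _ (Nat.succ_pos _)⟩
    · push Not at hi
      obtain ⟨s, hs, t, ht, hst⟩ := hi
      have hne : s ≠ t := fun h => step_irrefl s (by rw [← h] at hst; exact hst)
      have h2 : 2 ≤ mdeg S := by
        have hsub : ({Sum.inl s, Sum.inl t} : Finset (I N D)) ⊆ S := by
          intro x hx
          rw [mem_insert, mem_singleton] at hx
          rcases hx with rfl | rfl
          · exact (hS1 s).1 hs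
          · exact (hS1 t).1 ht
        have := le_mdeg S {Sum.inl s, Sum.inl t} (Sum.inr (Sum.inl (s, t))) hsub (by
          intro y hy
          rw [mem_insert, mem_singleton] at hy
          rw [mem_E]
          exact ⟨hst, hy⟩)
        rwa [card_pair (fun h => hne (Sum.inl.inj h))] at this
      obtain ⟨M, hM, hMi, hMc⟩ := third S1
      refine ⟨M, hM, hMi, hMc.trans ?_⟩
      rw [mul_comm]
      exact Nat.mul_le_mul_left _ (by omega)
  -- the star
  obtain ⟨M2, hM2, hM2c, hc2⟩ : ∃ M2 ⊆ S2, M2.card ≤ 1 ∧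
      S2.card ≤ M2.card * (mdeg S + 1) := by
    rcases S2.eq_empty_or_nonempty with he | ⟨d, hd⟩
    · exact ⟨∅, empty_subset _, by simp, by simp [he]⟩
    · refine ⟨{d}, singleton_subset_iff.2 hd, by simp, ?_⟩
      rw [card_singleton, one_mul]
      have : (S2.image (Sum.inr : Fin D → I N D)).card ≤ mdeg S := by
        refine le_mdeg S _ (Sum.inr (Sum.inr ())) ?_ ?_
        · intro x hx
          obtain ⟨d', hd', rfl⟩ := mem_image.1 hx
          exact (hS2 d').1 hd'
        · intro x hx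
          obtain ⟨d', hd', rfl⟩ := mem_image.1 hx
          rw [mem_E]
          exact ⟨d', rfl⟩
      rw [card_image_of_injective _ Sum.inr_injective] at this
      omega
  refine ⟨M1.disjSum M2, ?_, ?_, ?_⟩
  · intro x hx
    rcases x with x | x
    · exact (hS1 x).1 (hM1 (inl_mem_disjSum.1 hx))
    · exact (hS2 x).1 (hM2 (inr_mem_disjSum.1 hx))
  · intro x hx y hy hxy
    rcases x with x | x <;> rcases y with y | y
    · have hx' := inl_mem_disjSum.1 hx
      have hy' := inl_mem_disjSum.1 hy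
      exact disj_triples (fun h => hxy (by rw [h])) (hind _ hx' _ hy') (hind _ hy' _ hx')
    · exact disj_mixed x y
    · exact (disj_mixed y x).symm
    · have hx' := inr_mem_disjSum.1 hx
      have hy' := inr_mem_disjSum.1 hy
      exact absurd (congrArg Sum.inr (card_le_one.1 hM2c x hx' y hy')) hxy
  · rw [hScard, card_disjSum, add_mul]
    exact add_le_add hc1 hc2

theorem mdeg_univ {N D : ℕ} (hD : 2 ≤ D) : mdeg (univ : Finset (I N D)) = D := by
  classical
  apply le_antisymm
  · refine Finset.sup_le ?_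
    rintro (z | ⟨s, t⟩ | u) -
    · refine le_trans ?_ (by omega : 1 ≤ D)
      unfold degIn
      rw [card_le_one]
      intro x hx y hy
      have hx' : z = x := (mem_filter.1 hx).2
      have hy' : z = y := (mem_filter.1 hy).2
      exact hx'.symm.trans hy'
    · refine le_trans (card_le_card (t := {Sum.inl s, Sum.inl t}) ?_) (card_le_two.trans hD)
      intro x hx
      have hx' : Step s t ∧ (x = Sum.inl s ∨ x = Sum.inl t) := (mem_filter.1 hx).2
      rw [mem_insert, mem_singleton]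
      exact hx'.2
    · refine le_trans (card_le_card (t := univ.image (Sum.inr : Fin D → I N D)) ?_) ?_
      · intro x hx
        obtain ⟨d, rfl⟩ : ∃ d, x = Sum.inr d := (mem_filter.1 hx).2
        exact mem_image_of_mem _ (mem_univ d)
      · refine card_image_le.trans ?_
        rw [card_univ, Fintype.card_fin]
  · have := le_mdeg (univ : Finset (I N D)) (univ.image (Sum.inr : Fin D → I N D))
      (Sum.inr (Sum.inr ())) (subset_univ _) (by
        intro x hx
        obtain ⟨d, -, rfl⟩ := mem_image.1 hx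
        rw [mem_E]
        exact ⟨d, rfl⟩)
    rwa [card_image_of_injective _ Sum.inr_injective, card_univ, Fintype.card_fin] at this

theorem main (N D k : ℕ) (hN : 2 ^ 2 ^ k < N) (hD : 2 ≤ D) :
    ∃ (V : Type) (_ : Fintype V) (_ : DecidableEq V) (m : ℕ) (e : Fin m → Finset V),
      (∀ i, (e i).Nonempty) ∧
      (∀ i j, i ≠ j → (e i ∩ e j).card ≤ 1) ∧
      (∀ S : Finset (Fin m), ∃ M ⊆ S,
        (∀ i ∈ M, ∀ j ∈ M, i ≠ j → Disjoint (e i) (e j)) ∧
        S.card ≤ M.card *
          (Finset.univ.sup (fun v : V => (S.filter (fun i => v ∈ e i)).card) + 1)) ∧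
      Finset.univ.sup (fun v : V => (Finset.univ.filter (fun i : Fin m => v ∈ e i)).card) = D ∧
      ¬ ∃ c : Fin m → Fin k, ∀ i j, i ≠ j → c i = c j → Disjoint (e i) (e j) := by
  classical
  obtain ⟨m, ⟨φ⟩⟩ : ∃ m : ℕ, Nonempty (Fin m ≃ I N D) := ⟨_, ⟨(Fintype.equivFin (I N D)).symm⟩⟩
  obtain ⟨e, he⟩ : ∃ e : Fin m → Finset (Unbounded.V N D), ∀ i, e i = E (φ i) := ⟨_, fun _ => rfl⟩
  have hsup : ∀ S : Finset (Fin m),
      Finset.univ.sup (fun v : Unbounded.V N D => (S.filter (fun i => v ∈ e i)).card)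
        = mdeg (S.image φ) := by
    intro S
    unfold mdeg
    congr 1
    funext v
    unfold degIn
    rw [filter_image, card_image_of_injective _ φ.injective]
    congr 1
    exact filter_congr (fun i _ => by rw [he, mem_E])
  refine ⟨Unbounded.V N D, inferInstance, inferInstance, m, e, ?_, ?_, ?_, ?_, ?_⟩
  · intro i
    exact ⟨Sum.inl (φ i), by rw [he, mem_E]; exact rfl⟩
  · intro i j hij
    rw [he, he]
    exact linear (fun h => hij (φ.injective h))
  · intro S
    obtain ⟨M, hM, hd, hc⟩ := hereditary (S.image φ)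
    refine ⟨M.image φ.symm, ?_, ?_, ?_⟩
    · intro x hx
      obtain ⟨y, hy, rfl⟩ := mem_image.1 hx
      obtain ⟨z, hz, rfl⟩ := mem_image.1 (hM hy)
      simpa using hz
    · intro i hi j hj hij
      obtain ⟨y, hy, rfl⟩ := mem_image.1 hi
      obtain ⟨z, hz, rfl⟩ := mem_image.1 hj
      have hyz : y ≠ z := fun h => hij (by rw [h])
      rw [he, he, φ.apply_symm_apply, φ.apply_symm_apply]
      exact hd y hy z hz hyz
    · rw [card_image_of_injective _ φ.symm.injective]
      rw [card_image_of_injective _ φ.injective, ← hsup S] at hc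
      convert hc
  · have h1 := hsup univ
    have h2 : (univ : Finset (Fin m)).image φ = univ := by
      ext x; simp
    rw [h2, mdeg_univ hD] at h1
    convert h1
  · rintro ⟨c, hc⟩
    refine no_colouring k N hN (fun t => c (φ.symm (Sum.inl t))) ?_
    intro s t hst heq
    have hne : s ≠ t := fun h => step_irrefl s (by rw [← h] at hst; exact hst)
    have hd := hc _ _ (fun h => hne (Sum.inl.inj (φ.symm.injective h))) heq
    rw [he, he, φ.apply_symm_apply, φ.apply_symm_apply, Finset.disjoint_left] at hd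
    refine hd (a := Sum.inr (Sum.inl (s, t))) ?_ ?_
    · rw [mem_E]; exact ⟨hst, Or.inl rfl⟩
    · rw [mem_E]; exact ⟨hst, Or.inr rfl⟩

/-- For all `D ≥ 2` and all `k` there is a linear hypergraph of maximum degree exactly `D`, every
partial hypergraph `H'` of which has a matching of at least `m(H') / (Δ(H') + 1)` edges, whose
edges cannot be properly coloured with `k` colours. -/
theorem result (D k : ℕ) (hD : 2 ≤ D) :
    ∃ (V : Type) (_ : Fintype V) (_ : DecidableEq V) (m : ℕ) (e : Fin m → Finset V),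
      (∀ i, (e i).Nonempty) ∧
      (∀ i j, i ≠ j → (e i ∩ e j).card ≤ 1) ∧
      (∀ S : Finset (Fin m), ∃ M ⊆ S,
        (∀ i ∈ M, ∀ j ∈ M, i ≠ j → Disjoint (e i) (e j)) ∧
        S.card ≤ M.card *
          (Finset.univ.sup (fun v : V => (S.filter (fun i => v ∈ e i)).card) + 1)) ∧
      Finset.univ.sup (fun v : V => (Finset.univ.filter (fun i : Fin m => v ∈ e i)).card) = D ∧
      ¬ ∃ c : Fin m → Fin k, ∀ i j, i ≠ j → c i = c j → Disjoint (e i) (e j) :=
  main _ D k (Nat.lt_succ_self _) hD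

end Pool.Agent.Results.MP_daf6f7_co.Unbounded
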